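import Pool.Agent.J6H8.VT.Small
import Pool.Agent.J6H30.VT.Trans
import Pool.Agent.J6H42.VT.Fill
import Pool.Agent.J6H57.VT.Dim
import Pool.Agent.J6H77.VT.Move
import Pool.Agent.J6H77.VT.Vertex

/-!
# Asymptotic independence on the weighted planes `P(1, 1, δ)` for all `n ≥ δ + 20 √δ`
-/

set_option autoImplicit false

namespace Pool.Agent.J6H8.VT

open Pool.Agent.TH880.NB Pool.Agent.J6H57.VT

theorem vertexT : VertexT :=
  Pool.Agent.J6H77.VT.vertex (Pool.Agent.J6H42.VT.fill contain add dim Pool.Agent.J6H42.VT.count)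
    Pool.Agent.J6H30.VT.trans

/-- asymptotic independence on `P(1, 1, δ)` at `n ≥ δ + 20 √δ` points -/
theorem PA_main {δ n : ℕ} (hδ : 1 ≤ δ) (hn : (δ : ℝ) + 20 * √δ ≤ n) : PA n 0 δ :=
  PA_sqrt (Pool.Agent.J6H77.VT.moveA vertexT) (Pool.Agent.J6H77.VT.moveB vertexT) hδ hn

end Pool.Agent.J6H8.VT
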