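import Pool.Agent.J6H8.VT.Two

/-!
# The vertex move: all numbers `n ≥ δ + 20 √δ`, for large `δ`
-/

set_option autoImplicit false

namespace Pool.Agent.J6H8.VT

open Pool.Agent.TH880.NB Pool.Agent.J6H57.VT

/-- the choice of `u` -/
theorem exists_u {δ : ℕ} (hδ : 1044 ≤ δ) :
    ∃ u : ℕ, u % 2 = 1 ∧ 31 ≤ u ∧ (10 * u + 13) ^ 2 ≤ 100 * δ ∧ 100 * δ < (10 * u + 33) ^ 2 := by
  obtain ⟨r, hr⟩ : ∃ r, r = Nat.sqrt (100 * δ) := ⟨_, rfl⟩
  have h1 : r ^ 2 ≤ 100 * δ := by rw [hr]; exact Nat.sqrt_le' _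
  have h2 : 100 * δ < (r + 1) ^ 2 := by rw [hr]; exact Nat.lt_succ_sqrt' _
  have h3 : 323 ≤ r := by
    by_contra hcon
    push Not at hcon
    have : (r + 1) ^ 2 ≤ 323 ^ 2 := Nat.pow_le_pow_left (by omega) 2
    omega
  obtain ⟨k, hk⟩ : ∃ k, k = (r - 23) / 20 := ⟨_, rfl⟩
  have h4 : 20 * k + 23 ≤ r := by omega
  have h5 : r < 20 * (k + 1) + 23 := by omega
  refine ⟨2 * k + 1, by omega, by omega, ?_, ?_⟩
  · calc (10 * (2 * k + 1) + 13) ^ 2 ≤ r ^ 2 := Nat.pow_le_pow_left (by omega) 2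
      _ ≤ _ := h1
  · calc 100 * δ < (r + 1) ^ 2 := h2
      _ ≤ _ := Nat.pow_le_pow_left (by omega) 2

/-- the choice of `j1` and `c` -/
theorem exists_jc {N u : ℕ} (hu : u % 2 = 1) (h : u * (u + 8) < N) :
    ∃ c j1 : ℕ, 1 ≤ j1 ∧ j1 ≤ u ∧ c * u + (u + 8) * j1 = N := by
  have hu0 : 0 < u := by omega
  have hcop : IsCoprime (u : ℤ) 8 := by
    have h1 : Nat.Coprime u (2 ^ 3) :=
      Nat.Coprime.pow_right 3 (Nat.coprime_two_right.2 (Nat.odd_iff.2 hu))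
    have h2 : IsCoprime (u : ℤ) ((2 ^ 3 : ℕ) : ℤ) := Nat.isCoprime_iff_coprime.2 h1
    simpa using h2
  obtain ⟨a, b, hab⟩ := hcop
  -- `8 b ≡ 1`
  obtain ⟨x, hx⟩ : ∃ x : ℤ, x = (N * b - 1) % u + 1 := ⟨_, rfl⟩
  have hx1 : 1 ≤ x := by
    have := Int.emod_nonneg (N * b - 1) (by omega : (u : ℤ) ≠ 0)
    omega
  have hx2 : x ≤ u := by
    have := Int.emod_lt_of_pos (N * b - 1) (by omega : (0 : ℤ) < u)
    omega
  obtain ⟨q, hq⟩ : ∃ q : ℤ, x = N * b - u * q := by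
    refine ⟨(N * b - 1) / u, ?_⟩
    have := Int.emod_add_mul_ediv (N * b - 1) u
    rw [hx]; linarith
  -- `N - (u + 8) x` is divisible by `u`
  obtain ⟨c, hc⟩ : ∃ c : ℤ, c = N * a + 8 * q - x := ⟨_, rfl⟩
  have hcu : c * u + (u + 8) * x = N := by
    rw [hc]
    have : (N : ℤ) * (a * u + b * 8) = N := by rw [hab, mul_one]
    linear_combination this + 8 * hq
  have hc0 : 0 ≤ c := by
    by_contra hcon
    push Not at hcon
    have h1 : c * u < 0 := mul_neg_of_neg_of_pos hcon (by exact_mod_cast hu0)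
    have h2 : ((u : ℤ) + 8) * x ≤ (u + 8) * u := by
      apply mul_le_mul_of_nonneg_left hx2; positivity
    have h3 : ((u * (u + 8) : ℕ) : ℤ) < N := by exact_mod_cast h
    push_cast at h3
    linarith
  obtain ⟨c', rfl⟩ := Int.eq_ofNat_of_zero_le hc0
  obtain ⟨x', rfl⟩ := Int.eq_ofNat_of_zero_le (by omega : 0 ≤ x)
  exact ⟨c', x', by exact_mod_cast hx1, by exact_mod_cast hx2, by exact_mod_cast hcu⟩

/-- the slack -/
theorem slack {u z c : ℝ} (hu : 31 ≤ u) (hz : 13 / 5 ≤ z) (hc1 : u + 2 * z - 8 ≤ c)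
    (hc2 : c ≤ 2 * (u + z)) :
    (u + z) * (u + 8) ^ 2 < c * ((u + 8) ^ 2 * z - c * u) := by
  obtain ⟨c0, h0⟩ : ∃ c0, c0 = u + 2 * z - 8 := ⟨_, rfl⟩
  obtain ⟨c1, h1⟩ : ∃ c1, c1 = 2 * (u + z) := ⟨_, rfl⟩
  have hc01 : 0 < c1 - c0 := by rw [h0, h1]; linarith
  have hu0 : 0 < u := by linarith
  have g0 : 0 < c0 * ((u + 8) ^ 2 * z - c0 * u) - (u + z) * (u + 8) ^ 2 := by
    have e : c0 * ((u + 8) ^ 2 * z - c0 * u) - (u + z) * (u + 8) ^ 2 =
        (z - 2) * u ^ 3 + (2 * z ^ 2 + 3 * z) * u ^ 2 + (28 * z ^ 2 - 48 * z - 128) * u +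
          (128 * z ^ 2 - 576 * z) := by
      rw [h0]; ring
    rw [e]
    have a1 : 0 ≤ (z - 2) * u ^ 3 := by
      have : 0 ≤ z - 2 := by linarith
      positivity
    have a2 : (2 * z ^ 2 + 3 * z) * (31 * u) ≤ (2 * z ^ 2 + 3 * z) * u ^ 2 := by
      apply mul_le_mul_of_nonneg_left _ (by positivity)
      nlinarith
    have a3 : 0 ≤ (90 * z ^ 2 + 45 * z - 128) * (u - 31) := by
      apply mul_nonneg _ (by linarith)
      nlinarith
    nlinarith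
  have g1 : 0 < c1 * ((u + 8) ^ 2 * z - c1 * u) - (u + z) * (u + 8) ^ 2 := by
    have e : c1 * ((u + 8) ^ 2 * z - c1 * u) - (u + z) * (u + 8) ^ 2 =
        (u + z) * ((2 * z - 5) * u ^ 2 + (28 * z - 16) * u + 64 * (2 * z - 1)) := by
      rw [h1]; ring
    rw [e]
    have a1 : 0 ≤ (2 * z - 5) * u ^ 2 := by
      have : 0 ≤ 2 * z - 5 := by linarith
      positivity
    have a2 : 0 ≤ (28 * z - 16) * u := by
      have : 0 ≤ 28 * z - 16 := by linarith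
      positivity
    apply mul_pos (by linarith)
    linarith
  have key : 0 < (c1 - c0) * (c * ((u + 8) ^ 2 * z - c * u) - (u + z) * (u + 8) ^ 2) := by
    have e : (c1 - c0) * (c * ((u + 8) ^ 2 * z - c * u) - (u + z) * (u + 8) ^ 2) =
        (c0 * ((u + 8) ^ 2 * z - c0 * u) - (u + z) * (u + 8) ^ 2) * (c1 - c) +
        (c1 * ((u + 8) ^ 2 * z - c1 * u) - (u + z) * (u + 8) ^ 2) * (c - c0) +
        u * (c - c0) * (c1 - c) * (c1 - c0) := by ring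
    rw [e]
    have b0 : 0 ≤ c - c0 := by linarith
    have b1 : 0 ≤ c1 - c := by linarith
    have b2 : 0 ≤ u * (c - c0) * (c1 - c) * (c1 - c0) := by positivity
    rcases b0.eq_or_lt with h | h
    · have : 0 < c1 - c := by linarith
      have := mul_pos g0 this
      have := mul_nonneg g1.le b0
      linarith
    · have := mul_nonneg g0.le b1
      have := mul_pos g1 h
      linarith
  have := (mul_pos_iff_of_pos_left hc01).1 key
  linarith

theorem large (hA : MoveAT) (hB : MoveBT) {δ n : ℕ} (hδ : 1044 ≤ δ)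
    (hn : (δ : ℝ) + 20 * √δ ≤ n) : PA n 0 δ := by
  obtain ⟨u, hu2, hu, h1, h2⟩ := exists_u hδ
  have h3 : u * (u + 8) < 2 * δ := by nlinarith
  obtain ⟨c, j1, hj1, hj1u, hc⟩ := exists_jc hu2 h3
  have huR : (31 : ℝ) ≤ u := by exact_mod_cast hu
  have hu0 : (0 : ℝ) < u := by linarith
  have h1R : (10 * (u : ℝ) + 13) ^ 2 ≤ 100 * δ := by exact_mod_cast h1
  have h2R : 100 * (δ : ℝ) < (10 * u + 33) ^ 2 := by exact_mod_cast h2
  have hcR : (c : ℝ) * u + (u + 8) * j1 = 2 * δ := by exact_mod_cast hc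
  have hj1R : (1 : ℝ) ≤ j1 := by exact_mod_cast hj1
  have hj1uR : (j1 : ℝ) ≤ u := by exact_mod_cast hj1u
  obtain ⟨z, hz⟩ : ∃ z : ℝ, z = (δ - u ^ 2) / u := ⟨_, rfl⟩
  have hδz : (δ : ℝ) = u * (u + z) := by rw [hz]; field_simp; ring
  have hz1 : 13 / 5 ≤ z := by
    rw [hz, le_div_iff₀ hu0]
    nlinarith
  have hz2 : z ≤ 7 := by
    rw [hz, div_le_iff₀ hu0]
    nlinarith
  have hc1 : (u : ℝ) + 2 * z - 8 ≤ c := by
    have : (u : ℝ) * (u + 2 * z - 8) ≤ u * c := by nlinarith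
    exact le_of_mul_le_mul_left this hu0
  have hc2 : (c : ℝ) ≤ 2 * (u + z) := by
    have : (u : ℝ) * c ≤ u * (2 * (u + z)) := by nlinarith
    exact le_of_mul_le_mul_left this hu0
  have hsl := slack huR hz1 hc1 hc2
  refine two_step hA hB (M := u * (u + 8)) (m := (u + 8) ^ 2) (j := 2 * u) (j1 := j1) (c := c)
    (by omega) hj1 ?_ (Nat.one_le_pow _ _ (by omega)) ?_ ?_ ?_ ?_
  · nlinarith
  · by_contra hcon
    have : c = 0 := by omega
    rw [this] at hc1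
    push_cast at hc1
    linarith
  · zify at hc ⊢
    linear_combination (-(u : ℤ) * (u + 8) ^ 2) * hc
  · have : ((δ * ((u + 8) ^ 2) ^ 2 + c * ((u * (u + 8)) ^ 2 * (u + 8) ^ 2 +
        c * (u * (u + 8)) ^ 2) : ℕ) : ℝ) < ((c * (δ * ((u + 8) ^ 2) ^ 2) : ℕ) : ℝ) := by
      push_cast
      rw [hδz]
      have h5 : 0 < (u : ℝ) * (u + 8) ^ 2 := by positivity
      have := mul_lt_mul_of_pos_left hsl h5
      nlinarith
    exact_mod_cast this
  · have hs : √(δ : ℝ) ≤ u + 33 / 10 := by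
      rw [show (u : ℝ) + 33 / 10 = √((u + 33 / 10) ^ 2) by
        rw [Real.sqrt_sq (by positivity)]]
      apply Real.sqrt_le_sqrt
      nlinarith
    have hss : √(δ : ℝ) * √(δ : ℝ) = δ := Real.mul_self_sqrt (Nat.cast_nonneg _)
    have hs0 : 0 ≤ √(δ : ℝ) := Real.sqrt_nonneg _
    have h6 : √(δ : ℝ) * (16 * u + 64) ≤ 20 * u ^ 2 := by
      calc √(δ : ℝ) * (16 * u + 64) ≤ (u + 33 / 10) * (16 * u + 64) := by gcongr
        _ ≤ 20 * u ^ 2 := by nlinarith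
    have h7 : (δ : ℝ) * (u + 8) ^ 2 ≤ n * u ^ 2 := by
      have h8 : (δ : ℝ) * (16 * u + 64) ≤ 20 * √(δ : ℝ) * u ^ 2 := by
        calc (δ : ℝ) * (16 * u + 64) = √(δ : ℝ) * (√(δ : ℝ) * (16 * u + 64)) := by
              rw [← mul_assoc, hss]
          _ ≤ √(δ : ℝ) * (20 * u ^ 2) := by gcongr
          _ = _ := by ring
      have h9 : ((δ : ℝ) + 20 * √δ) * u ^ 2 ≤ n * u ^ 2 := by gcongr
      nlinarith
    have : ((δ * ((u + 8) ^ 2) ^ 2 : ℕ) : ℝ) ≤ ((n * (u * (u + 8)) ^ 2 : ℕ) : ℝ) := by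
      push_cast
      have h10 : 0 ≤ ((u : ℝ) + 8) ^ 2 := by positivity
      have := mul_le_mul_of_nonneg_left h7 h10
      nlinarith
    exact_mod_cast this

end Pool.Agent.J6H8.VT
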