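import Pool.Agent.J6H8.VT.Large
import Pool.Agent.TH266.NS.Main
import Pool.Agent.TH552.NB.Plane1

/-!
# The vertex move: all numbers `n ≥ δ + 20 √δ`
-/

set_option autoImplicit false

namespace Pool.Agent.J6H8.VT

open Pool.Agent.TH880.NB Pool.Agent.J6H57.VT

/-- the parameters `M, m, j, j1, c` are good for `δ` -/
def ok (δ : ℕ) (x : ℕ × ℕ × ℕ × ℕ × ℕ) : Bool :=
  Nat.ble 1 x.2.2.2.1 && (Nat.blt (x.2.2.2.1 + δ) x.1 && (Nat.ble 1 x.2.1 &&
    (Nat.ble 1 x.2.2.2.2 && (Nat.beq (x.2.2.1 * δ * x.2.1)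
      (x.2.2.2.1 * x.1 * x.2.1 + x.2.2.2.2 * x.1 ^ 2) &&
    (Nat.blt (δ * x.2.1 ^ 2 + x.2.2.2.2 * (x.1 ^ 2 * x.2.1 + x.2.2.2.2 * x.1 ^ 2))
      (x.2.2.2.2 * (δ * x.2.1 ^ 2)) &&
    Nat.ble (δ * (x.2.1 ^ 2) ^ 2 + δ * (x.1 ^ 2) ^ 2)
      (400 * (x.1 ^ 2) ^ 2 + 2 * (δ * (x.2.1 ^ 2 * x.1 ^ 2))))))))

def chk : ℕ → List (ℕ × ℕ × ℕ × ℕ × ℕ) → Bool
  | _, [] => true
  | δ, x :: l => ok δ x && chk (δ + 1) l

theorem chk_spec : ∀ (l : List (ℕ × ℕ × ℕ × ℕ × ℕ)) (δ : ℕ), chk δ l = true →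
    ∀ i, i < l.length → ∃ x, ok (δ + i) x = true
  | [], _, _, i, hi => by simp at hi
  | x :: l, δ, h, i, hi => by
      rw [chk, Bool.and_eq_true] at h
      rcases i with _ | i
      · exact ⟨x, h.1⟩
      · have := chk_spec l (δ + 1) h.2 i (by simpa using hi)
        rwa [show δ + 1 + i = δ + (i + 1) by omega] at this

def certs0 : List (ℕ × ℕ × ℕ × ℕ × ℕ) := [
  (48, 72, 16, 1, 21), (48, 72, 8, 1, 10), (54, 81, 18, 5, 16), (52, 78, 13, 2, 15),
  (54, 81, 18, 3, 20), (56, 80, 14, 2, 15), (60, 88, 10, 1, 11), (56, 84, 14, 3, 15),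
  (60, 90, 20, 5, 19), (60, 88, 20, 3, 22), (60, 84, 12, 1, 14), (60, 85, 15, 2, 17),
  (60, 80, 10, 2, 10), (60, 90, 10, 1, 13), (66, 99, 22, 5, 22), (65, 91, 13, 2, 14),
  (70, 100, 14, 1, 16), (66, 90, 11, 3, 10), (70, 98, 10, 4, 7), (70, 98, 10, 2, 10),
  (70, 98, 8, 1, 9), (72, 99, 12, 3, 11), (70, 98, 10, 1, 12), (72, 96, 9, 1, 10),
  (72, 96, 12, 1, 14), (75, 99, 10, 1, 11), (78, 108, 13, 1, 15), (78, 104, 13, 3, 12),
  (88, 128, 22, 10, 12), (84, 117, 14, 3, 13), (78, 104, 13, 2, 14), (80, 110, 20, 3, 22),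
  (84, 112, 12, 2, 12), (84, 112, 14, 4, 12), (84, 112, 21, 4, 21), (84, 112, 21, 2, 24),
  (88, 121, 8, 3, 6), (84, 112, 21, 1, 26), (88, 121, 8, 1, 9), (90, 117, 15, 4, 13),
  (90, 120, 9, 1, 10), (96, 128, 12, 1, 13), (95, 125, 19, 6, 15), (96, 126, 16, 4, 14),
  (96, 128, 24, 5, 23), (96, 128, 12, 3, 11), (95, 125, 19, 3, 20), (102, 135, 17, 4, 15),
  (96, 128, 8, 1, 9), (96, 128, 24, 1, 30)]

def certs1 : List (ℕ × ℕ × ℕ × ℕ × ℕ) := [
  (105, 140, 21, 7, 16), (102, 136, 17, 4, 16), (108, 144, 27, 10, 19), (100, 125, 10, 1, 11),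
  (108, 144, 12, 5, 8), (105, 135, 14, 4, 12), (112, 147, 16, 3, 15), (108, 144, 9, 4, 6),
  (112, 147, 16, 1, 18), (112, 147, 12, 2, 12), (112, 144, 16, 1, 18), (108, 144, 27, 1, 34),
  (115, 150, 23, 3, 24), (112, 147, 20, 1, 24), (120, 160, 30, 10, 23), (120, 156, 12, 1, 13),
  (114, 152, 19, 2, 22), (119, 153, 17, 2, 18), (120, 160, 30, 5, 31), (120, 150, 12, 1, 13),
  (120, 153, 16, 2, 17), (119, 147, 17, 2, 18), (120, 150, 16, 2, 17), (126, 162, 14, 3, 13),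
  (126, 162, 12, 2, 12), (126, 161, 21, 2, 23), (126, 162, 14, 1, 16), (126, 162, 28, 3, 31),
  (132, 168, 22, 4, 21), (136, 176, 17, 7, 11), (132, 176, 33, 5, 35), (132, 165, 22, 5, 20),
  (138, 180, 23, 2, 25), (136, 170, 17, 4, 15), (135, 175, 18, 1, 21), (140, 180, 14, 6, 9),
  (144, 192, 36, 11, 29), (140, 175, 14, 2, 14), (140, 175, 12, 1, 13), (140, 175, 14, 3, 13),
  (144, 180, 16, 3, 15), (140, 175, 21, 2, 23), (144, 192, 36, 5, 39), (140, 175, 14, 1, 16),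
  (144, 192, 36, 4, 41), (150, 189, 20, 2, 21), (152, 192, 19, 1, 21), (150, 189, 25, 7, 21),
  (152, 192, 19, 6, 15), (152, 190, 19, 6, 15)]

def certs2 : List (ℕ × ℕ × ℕ × ℕ × ℕ) := [
  (154, 196, 22, 5, 20), (152, 192, 19, 4, 18), (153, 189, 17, 5, 14), (160, 200, 24, 11, 14),
  (152, 192, 19, 2, 21), (156, 195, 26, 5, 25), (156, 208, 39, 4, 45), (160, 200, 12, 1, 13),
  (170, 220, 15, 5, 11), (160, 200, 16, 5, 13), (160, 192, 16, 3, 15), (160, 192, 20, 2, 21),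
  (160, 200, 32, 1, 38), (168, 216, 28, 3, 30), (171, 216, 19, 5, 16), (168, 204, 21, 6, 17),
  (168, 208, 12, 1, 13), (168, 208, 14, 3, 13), (168, 224, 42, 4, 49), (174, 216, 29, 8, 24),
  (170, 204, 17, 4, 15), (180, 225, 18, 7, 12), (187, 242, 34, 18, 16), (176, 220, 22, 5, 20),
  (174, 216, 29, 4, 30), (180, 224, 27, 3, 28), (180, 220, 20, 1, 22), (180, 216, 15, 1, 16),
  (180, 225, 36, 5, 37), (180, 216, 15, 2, 15), (180, 225, 36, 3, 40), (180, 216, 15, 3, 14),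
  (180, 225, 24, 2, 27), (184, 224, 23, 5, 21), (200, 256, 25, 13, 12), (189, 231, 21, 2, 22),
  (200, 256, 25, 7, 20), (195, 240, 15, 1, 16), (198, 252, 33, 14, 21), (192, 240, 24, 7, 20),
  (190, 228, 19, 1, 21), (198, 242, 15, 1, 16), (198, 240, 27, 9, 20), (198, 242, 18, 4, 16),
  (198, 242, 16, 3, 15), (195, 234, 13, 1, 14), (198, 242, 18, 1, 20), (200, 240, 25, 4, 24),
  (198, 242, 18, 2, 19), (203, 245, 29, 7, 25)]

def certs3 : List (ℕ × ℕ × ℕ × ℕ × ℕ) := [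
  (200, 240, 20, 2, 21), (200, 240, 25, 2, 27), (208, 256, 13, 5, 9), (207, 253, 23, 4, 22),
  (208, 256, 26, 7, 22), (210, 252, 21, 5, 18), (208, 256, 13, 2, 13), (220, 275, 22, 9, 14),
  (210, 252, 15, 2, 15), (210, 250, 14, 1, 15), (210, 245, 18, 3, 17), (210, 245, 15, 1, 16),
  (216, 264, 24, 5, 22), (216, 261, 27, 2, 29), (220, 264, 20, 4, 18), (216, 256, 18, 4, 16),
  (220, 275, 44, 7, 44), (232, 288, 29, 12, 18), (225, 270, 25, 7, 20), (232, 288, 29, 5, 27),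
  (220, 264, 22, 4, 21), (225, 270, 25, 4, 24), (224, 272, 32, 3, 34), (238, 294, 34, 19, 15),
  (228, 272, 19, 4, 17), (225, 270, 15, 3, 14), (238, 289, 28, 12, 17), (238, 289, 28, 8, 22),
  (238, 289, 28, 4, 27), (230, 275, 23, 4, 22), (238, 289, 28, 10, 20), (240, 288, 20, 3, 19),
  (238, 289, 14, 1, 15), (240, 285, 20, 3, 19), (238, 289, 28, 8, 23), (240, 285, 24, 7, 19),
  (245, 294, 35, 13, 24), (240, 288, 15, 2, 15), (238, 289, 14, 3, 13), (240, 288, 20, 2, 21),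
  (240, 288, 16, 4, 14), (240, 288, 20, 3, 20), (240, 288, 40, 2, 45), (245, 294, 35, 4, 36),
  (261, 324, 29, 4, 28), (250, 300, 25, 9, 18), (261, 324, 29, 1, 32), (264, 324, 28, 11, 18),
  (252, 294, 20, 3, 19), (252, 294, 18, 2, 18)]

def certs4 : List (ℕ × ℕ × ℕ × ℕ × ℕ) := [
  (250, 300, 25, 2, 27), (252, 294, 18, 3, 17), (260, 312, 20, 9, 12), (252, 297, 21, 2, 22),
  (255, 300, 17, 3, 16), (260, 312, 26, 5, 24), (273, 338, 21, 8, 14), (270, 324, 25, 10, 16),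
  (264, 312, 24, 1, 26), (264, 320, 33, 7, 30), (260, 312, 26, 3, 27), (270, 325, 27, 4, 26),
  (273, 338, 21, 2, 22), (264, 304, 22, 5, 19), (273, 336, 39, 11, 32), (270, 315, 27, 8, 21),
  (270, 320, 15, 1, 16), (270, 324, 45, 7, 44), (280, 343, 40, 9, 35), (275, 325, 25, 2, 26),
  (270, 312, 27, 4, 26), (280, 336, 20, 9, 12), (276, 320, 23, 5, 20), (276, 324, 23, 7, 18),
  (273, 338, 42, 1, 50), (286, 338, 22, 3, 21), (279, 324, 31, 6, 28), (280, 330, 35, 6, 33),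
  (280, 325, 24, 1, 26), (280, 325, 28, 5, 26), (280, 320, 21, 4, 19), (288, 336, 24, 5, 21),
  (286, 338, 22, 1, 24), (286, 338, 22, 7, 17), (288, 336, 32, 7, 28), (286, 338, 33, 1, 37),
  (286, 338, 22, 3, 22), (294, 343, 21, 3, 20), (297, 363, 27, 11, 18), (294, 343, 21, 4, 19),
  (294, 343, 28, 4, 27), (294, 343, 21, 5, 18), (294, 336, 21, 3, 20), (300, 350, 25, 6, 21),
  (304, 361, 32, 6, 29), (294, 343, 21, 1, 23), (294, 343, 14, 1, 15), (304, 361, 24, 2, 25),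
  (304, 361, 16, 7, 10), (308, 363, 26, 7, 21)]

def certs5 : List (ℕ × ℕ × ℕ × ℕ × ℕ) := [
  (300, 342, 20, 3, 19), (308, 363, 21, 10, 12), (306, 357, 34, 3, 35), (304, 361, 24, 5, 22),
  (312, 364, 24, 5, 21), (312, 364, 26, 7, 21), (308, 352, 22, 4, 20), (308, 363, 14, 1, 15),
  (315, 375, 42, 11, 35), (320, 380, 20, 3, 19), (310, 372, 31, 3, 33), (320, 375, 32, 5, 30),
  (330, 400, 33, 1, 36), (319, 377, 29, 6, 26), (315, 378, 35, 1, 40), (330, 390, 33, 9, 26),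
  (330, 400, 33, 8, 28), (324, 378, 27, 8, 21), (333, 405, 37, 6, 35), (330, 396, 55, 14, 46),
  (322, 368, 23, 5, 20), (320, 375, 16, 3, 15), (329, 392, 47, 5, 48), (328, 384, 41, 9, 36),
  (330, 385, 30, 5, 28), (330, 378, 22, 3, 21), (336, 392, 32, 10, 24), (336, 392, 24, 11, 14),
  (340, 400, 22, 9, 14), (330, 375, 22, 4, 20), (340, 400, 34, 7, 30), (336, 384, 21, 2, 21),
  (336, 384, 28, 8, 22), (336, 384, 21, 3, 20), (336, 384, 18, 1, 19), (336, 384, 21, 4, 19),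
  (342, 405, 38, 3, 40), (336, 392, 36, 3, 38), (342, 399, 38, 7, 35), (360, 432, 30, 12, 19),
  (345, 405, 23, 7, 18), (348, 406, 29, 10, 21), (360, 432, 60, 22, 41), (360, 432, 30, 14, 17),
  (360, 432, 20, 8, 13), (350, 406, 35, 9, 29), (352, 416, 32, 9, 26), (351, 405, 26, 8, 20),
  (364, 432, 39, 14, 27), (360, 430, 45, 7, 43)]

def certs6 : List (ℕ × ℕ × ℕ × ℕ × ℕ) := [
  (350, 400, 35, 3, 36), (360, 432, 30, 13, 19), (360, 432, 60, 12, 55), (360, 414, 30, 9, 23),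
  (376, 448, 47, 26, 21), (360, 420, 36, 5, 35), (364, 420, 28, 1, 30), (360, 420, 45, 2, 49),
  (360, 432, 60, 3, 67), (360, 405, 20, 1, 21), (376, 448, 47, 15, 35), (360, 405, 20, 2, 20),
  (364, 416, 26, 1, 28), (372, 432, 31, 4, 30), (396, 484, 36, 13, 24), (372, 434, 31, 6, 28),
  (376, 448, 47, 4, 49), (378, 441, 27, 13, 15), (372, 432, 31, 7, 27), (377, 435, 29, 2, 30),
  (380, 440, 38, 8, 33), (378, 441, 18, 8, 11), (390, 468, 65, 22, 47), (378, 441, 27, 4, 26),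
  (378, 432, 21, 3, 20), (378, 441, 27, 5, 25), (378, 432, 27, 2, 28), (390, 450, 26, 4, 24),
  (390, 468, 65, 13, 59), (385, 440, 35, 6, 32), (390, 450, 26, 12, 15), (390, 450, 26, 6, 22),
  (390, 450, 22, 10, 13), (392, 448, 21, 1, 22), (390, 450, 26, 1, 28), (390, 450, 26, 8, 20),
  (390, 450, 26, 2, 27), (390, 450, 39, 7, 36), (390, 450, 26, 3, 26), (396, 450, 33, 10, 25),
  (392, 448, 21, 4, 19), (390, 468, 65, 1, 76), (396, 456, 22, 5, 19), (396, 459, 33, 3, 34),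
  (420, 504, 70, 29, 43), (403, 465, 31, 4, 30), (408, 468, 32, 8, 26), (406, 464, 29, 7, 24),
  (405, 475, 27, 10, 19), (414, 486, 23, 4, 21)]

def certs7 : List (ℕ × ℕ × ℕ × ℕ × ℕ) := [
  (400, 448, 20, 1, 21), (418, 484, 38, 17, 22), (414, 486, 46, 16, 33), (418, 484, 38, 12, 28),
  (406, 464, 29, 4, 28), (416, 480, 26, 12, 15), (418, 484, 38, 14, 26), (418, 484, 19, 1, 20),
  (416, 480, 32, 5, 30), (418, 484, 19, 8, 12), (420, 480, 21, 1, 22), (420, 480, 30, 8, 24),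
  (429, 495, 26, 3, 25), (420, 480, 35, 6, 32), (414, 486, 46, 2, 51), (420, 480, 21, 3, 20),
  (420, 480, 35, 8, 30), (420, 490, 15, 1, 16), (420, 480, 30, 5, 28), (420, 480, 35, 3, 36),
  (420, 480, 42, 3, 44), (429, 495, 22, 4, 20), (429, 484, 26, 4, 24), (429, 494, 39, 5, 38),
  (440, 512, 55, 18, 40), (434, 496, 31, 9, 24), (429, 507, 33, 7, 30), (432, 486, 24, 3, 23),
  (432, 486, 32, 2, 33), (432, 486, 24, 4, 22), (435, 495, 29, 9, 22), (432, 486, 24, 5, 21),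
  (434, 496, 31, 6, 28), (432, 486, 36, 1, 39), (444, 512, 37, 8, 32), (448, 512, 28, 5, 25),
  (442, 507, 34, 7, 30), (440, 500, 22, 4, 20), (440, 512, 55, 6, 56), (448, 512, 24, 11, 14),
  (450, 522, 30, 4, 29), (448, 512, 28, 8, 22), (456, 522, 40, 13, 29), (448, 512, 28, 9, 21),
  (455, 539, 65, 7, 66), (448, 512, 21, 4, 19), (460, 529, 40, 14, 28), (448, 512, 28, 4, 27),
  (460, 529, 20, 1, 21), (460, 529, 20, 8, 13)]

def certs8 : List (ℕ × ℕ × ℕ × ℕ × ℕ) := [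
  (460, 529, 28, 1, 30), (460, 529, 20, 2, 20), (450, 500, 30, 1, 32), (462, 525, 33, 10, 25),
  (460, 529, 20, 3, 19), (460, 529, 22, 5, 19), (462, 528, 21, 3, 20), (456, 513, 38, 3, 39),
  (460, 529, 40, 2, 43), (460, 529, 50, 5, 51), (462, 528, 33, 1, 36), (468, 533, 39, 2, 41),
  (488, 576, 61, 19, 45), (480, 550, 48, 17, 33), (468, 528, 26, 6, 22), (480, 552, 24, 3, 23),
  (477, 567, 53, 10, 49), (476, 544, 34, 12, 24), (492, 576, 41, 1, 44), (476, 539, 34, 4, 33),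
  (480, 544, 32, 1, 34), (493, 578, 58, 19, 42), (492, 576, 41, 15, 28), (480, 544, 40, 9, 34),
  (476, 544, 17, 1, 18), (480, 540, 32, 2, 33), (504, 588, 48, 26, 22), (480, 540, 20, 1, 21),
  (484, 544, 33, 2, 34), (504, 588, 24, 8, 17), (490, 560, 49, 9, 44), (490, 560, 35, 13, 24),
  (486, 540, 27, 4, 25), (504, 588, 36, 17, 20), (493, 578, 29, 6, 26), (495, 561, 33, 2, 34),
  (494, 570, 38, 11, 30), (496, 576, 62, 6, 63), (490, 560, 35, 3, 36), (496, 576, 31, 7, 27),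
  (490, 560, 49, 3, 52), (504, 576, 28, 13, 16), (492, 576, 41, 3, 44), (504, 567, 28, 4, 26),
  (495, 550, 33, 2, 34), (504, 567, 24, 2, 24), (504, 588, 72, 11, 69), (504, 567, 28, 6, 24),
  (510, 578, 30, 14, 17), (504, 567, 28, 7, 23)]

def certs9 : List (ℕ × ℕ × ℕ × ℕ × ℕ) := [
  (504, 560, 28, 5, 25), (504, 567, 21, 2, 21), (504, 560, 36, 4, 35), (504, 567, 28, 1, 30),
  (510, 578, 30, 2, 31), (504, 567, 28, 2, 29), (510, 578, 20, 2, 20), (528, 605, 24, 1, 25),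
  (510, 578, 30, 4, 29), (510, 578, 20, 3, 19), (510, 578, 36, 3, 37), (528, 600, 24, 1, 25),
  (520, 585, 40, 7, 36), (528, 605, 24, 10, 15), (518, 588, 37, 2, 39), (525, 588, 35, 9, 28),
  (518, 592, 37, 5, 36), (528, 594, 33, 8, 27), (522, 580, 29, 6, 25), (520, 600, 52, 2, 57),
  (525, 588, 30, 8, 24), (528, 592, 44, 10, 37), (528, 594, 32, 10, 24), (532, 608, 19, 8, 12),
  (540, 625, 36, 13, 25), (528, 594, 22, 3, 21), (558, 648, 31, 10, 22), (540, 612, 30, 14, 17),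
  (558, 648, 62, 34, 28), (528, 594, 44, 1, 48), (539, 605, 28, 5, 25), (532, 588, 38, 5, 36),
  (544, 612, 32, 7, 27), (540, 600, 27, 3, 26), (539, 605, 49, 8, 45), (540, 600, 27, 4, 25),
  (540, 600, 24, 2, 24), (540, 600, 27, 5, 24), (546, 616, 21, 1, 22), (540, 600, 36, 5, 34),
  (555, 630, 37, 11, 28), (552, 621, 23, 1, 24), (550, 625, 22, 3, 21), (550, 625, 33, 5, 31),
  (550, 625, 20, 2, 20), (552, 621, 46, 5, 45), (558, 648, 62, 5, 64), (550, 625, 33, 7, 29),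
  (564, 640, 47, 10, 40), (550, 605, 25, 2, 25)]

def certs10 : List (ℕ × ℕ × ℕ × ℕ × ℕ) := [
  (550, 625, 44, 4, 45), (550, 605, 25, 3, 24), (558, 648, 31, 8, 26), (560, 625, 28, 5, 25),
  (558, 620, 31, 8, 25), (572, 650, 26, 3, 25), (570, 640, 45, 15, 32), (575, 650, 25, 1, 26),
  (560, 640, 20, 4, 18), (560, 640, 35, 4, 35), (570, 646, 38, 7, 34), (576, 648, 32, 6, 28),
  (585, 675, 39, 12, 29), (576, 648, 32, 15, 18), (572, 660, 44, 4, 45), (576, 648, 28, 13, 16),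
  (572, 650, 52, 7, 50), (576, 648, 32, 9, 25), (585, 675, 39, 15, 26), (576, 640, 24, 1, 25),
  (570, 648, 19, 3, 18), (576, 648, 32, 3, 32), (594, 675, 44, 20, 25), (576, 640, 36, 4, 35),
  (585, 675, 39, 5, 38), (585, 650, 39, 11, 30), (585, 675, 39, 6, 37), (585, 650, 27, 3, 26),
  (585, 650, 39, 4, 38), (595, 675, 34, 9, 27), (598, 676, 31, 13, 19), (585, 650, 26, 4, 24),
  (598, 676, 46, 9, 40), (598, 676, 23, 1, 24), (598, 676, 46, 18, 30), (600, 672, 30, 4, 28),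
  (598, 676, 23, 2, 23), (585, 650, 39, 1, 42), (594, 660, 27, 4, 25), (600, 675, 25, 3, 24),
  (594, 660, 33, 1, 35), (602, 686, 43, 5, 42), (598, 676, 23, 4, 21), (600, 675, 50, 9, 45),
  (608, 684, 32, 15, 18), (600, 666, 40, 6, 37), (598, 676, 46, 3, 48), (600, 675, 25, 6, 21),
  (630, 729, 70, 27, 45), (616, 693, 28, 3, 27)]

def certs11 : List (ℕ × ℕ × ℕ × ℕ × ℕ) := [
  (612, 680, 36, 8, 30), (620, 700, 31, 5, 28), (627, 722, 44, 28, 16), (624, 704, 36, 15, 22),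
  (610, 700, 61, 5, 63), (611, 676, 47, 10, 40), (627, 722, 33, 16, 18), (616, 693, 44, 11, 36),
  (612, 672, 34, 8, 28), (624, 702, 52, 13, 42), (616, 693, 56, 7, 54), (620, 700, 62, 11, 56),
  (627, 722, 66, 17, 54), (624, 696, 39, 12, 29), (616, 688, 44, 5, 43), (630, 714, 63, 16, 51),
  (624, 702, 32, 10, 24), (630, 700, 28, 2, 28), (627, 722, 33, 1, 36), (636, 720, 53, 7, 50),
  (630, 700, 42, 14, 30), (630, 700, 27, 3, 26), (638, 726, 58, 6, 57), (630, 700, 42, 7, 38),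
  (636, 720, 53, 3, 55), (624, 702, 52, 1, 57), (630, 700, 28, 6, 24), (648, 729, 36, 15, 22),
  (630, 700, 27, 6, 23), (630, 700, 21, 1, 22), (645, 720, 43, 13, 32), (646, 722, 34, 7, 29),
  (630, 700, 21, 2, 21), (646, 722, 34, 8, 28), (646, 722, 30, 14, 17), (648, 720, 36, 8, 30),
  (646, 722, 34, 1, 36), (640, 700, 32, 6, 28), (646, 722, 34, 2, 35), (646, 722, 34, 11, 25),
  (646, 722, 34, 3, 34), (648, 720, 27, 4, 25), (646, 722, 34, 4, 33), (648, 729, 36, 7, 32),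
  (648, 720, 36, 4, 35), (646, 722, 51, 4, 52), (672, 784, 96, 29, 73), (648, 720, 54, 4, 55),
  (672, 784, 96, 25, 78), (648, 729, 18, 1, 19)]

def certs12 : List (ℕ × ℕ × ℕ × ℕ × ℕ) := [
  (660, 740, 44, 10, 37), (663, 741, 39, 4, 38), (672, 784, 96, 23, 81), (660, 725, 33, 6, 29),
  (660, 725, 36, 9, 29), (660, 726, 30, 5, 27), (660, 726, 40, 4, 39), (660, 726, 30, 6, 26),
  (664, 768, 83, 9, 84), (660, 726, 50, 5, 49), (660, 726, 24, 2, 24), (660, 726, 45, 2, 47),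
  (666, 740, 37, 5, 35), (672, 752, 48, 5, 47), (672, 784, 96, 11, 97), (665, 722, 28, 2, 28),
  (672, 768, 84, 10, 83), (672, 768, 42, 9, 37), (675, 750, 45, 10, 38), (680, 750, 34, 6, 30),
  (675, 750, 27, 5, 24), (675, 750, 30, 8, 24), (690, 774, 50, 10, 43), (672, 735, 24, 1, 25),
  (675, 750, 45, 5, 44), (690, 765, 46, 14, 34), (688, 768, 43, 7, 39), (684, 760, 57, 11, 50),
  (725, 841, 50, 24, 26), (700, 784, 50, 16, 36), (684, 760, 38, 6, 35), (688, 768, 43, 10, 36),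
  (688, 768, 43, 2, 45), (700, 784, 25, 1, 26), (700, 784, 50, 11, 42), (700, 775, 35, 6, 31),
  (696, 768, 29, 3, 28), (688, 768, 43, 5, 42), (700, 784, 25, 11, 15), (702, 780, 39, 11, 30),
  (700, 784, 35, 3, 35), (700, 784, 25, 12, 14), (700, 784, 25, 4, 23), (708, 792, 59, 18, 44),
  (702, 780, 27, 4, 25), (700, 784, 25, 5, 22), (725, 841, 50, 33, 17), (700, 784, 50, 3, 52),
  (702, 780, 39, 7, 35), (720, 810, 40, 19, 22)]

def certs13 : List (ℕ × ℕ × ℕ × ℕ × ℕ) := [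
  (700, 784, 20, 2, 20), (720, 800, 48, 23, 26), (714, 792, 56, 15, 44), (720, 800, 36, 7, 31),
  (720, 800, 48, 16, 34), (720, 800, 36, 17, 20), (741, 845, 57, 32, 25), (720, 800, 32, 15, 18),
  (740, 840, 30, 10, 21), (720, 792, 45, 14, 33), (720, 800, 24, 1, 25), (720, 800, 36, 11, 27),
  (728, 816, 52, 5, 51), (720, 800, 24, 2, 24), (748, 867, 44, 21, 24), (720, 800, 36, 4, 35),
  (720, 800, 24, 3, 23), (720, 783, 30, 3, 29), (736, 828, 32, 15, 18), (720, 800, 24, 4, 22),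
  (726, 792, 33, 5, 30), (720, 810, 20, 3, 19), (720, 800, 48, 1, 52), (742, 833, 53, 21, 34),
  (728, 832, 91, 5, 97), (738, 820, 41, 13, 30), (728, 800, 26, 3, 25), (754, 845, 29, 1, 30),
  (735, 825, 49, 9, 44), (744, 828, 62, 19, 46), (754, 841, 52, 24, 29), (754, 841, 52, 16, 38),
  (765, 867, 45, 11, 36), (738, 810, 41, 4, 40), (754, 841, 52, 18, 36), (735, 819, 49, 2, 52),
  (748, 832, 55, 7, 52), (740, 825, 37, 7, 33), (754, 841, 52, 12, 43), (754, 841, 26, 2, 26),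
  (750, 825, 50, 9, 44), (754, 841, 39, 4, 38), (748, 816, 34, 6, 30), (756, 833, 48, 16, 34),
  (759, 847, 69, 17, 56), (752, 832, 47, 11, 39), (760, 836, 40, 9, 33), (756, 840, 27, 4, 25),
  (754, 841, 26, 5, 23), (756, 840, 63, 8, 60)]

def certs14 : List (ℕ × ℕ × ℕ × ℕ × ℕ) := [
  (750, 828, 25, 4, 23), (756, 833, 54, 7, 51), (756, 840, 42, 1, 45), (770, 850, 42, 10, 34),
  (770, 850, 44, 12, 34), (765, 837, 34, 5, 31), (765, 867, 45, 8, 41), (770, 847, 35, 6, 31),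
  (765, 850, 51, 7, 48), (770, 847, 35, 7, 30), (770, 847, 28, 2, 28), (770, 847, 30, 4, 28),
  (765, 867, 90, 7, 93), (770, 847, 35, 9, 28), (770, 840, 35, 7, 30), (770, 847, 28, 4, 26),
  (782, 867, 46, 15, 33), (770, 847, 35, 1, 37), (770, 847, 40, 6, 37), (770, 847, 35, 2, 36),
  (770, 847, 56, 2, 59), (770, 847, 35, 3, 35), (780, 870, 60, 7, 58), (782, 867, 46, 10, 39),
  (795, 900, 53, 23, 32), (784, 864, 28, 3, 27), (795, 900, 53, 9, 48), (780, 845, 30, 2, 30),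
  (784, 896, 98, 10, 99), (780, 845, 30, 3, 29), (782, 867, 46, 5, 45), (798, 882, 38, 8, 32),
  (780, 845, 40, 2, 41), (792, 864, 33, 4, 31), (798, 882, 34, 16, 19), (792, 864, 33, 5, 30),
  (792, 864, 30, 3, 29), (792, 864, 33, 6, 29), (792, 864, 44, 5, 42), (792, 864, 33, 7, 28),
  (798, 882, 38, 3, 38), (798, 882, 57, 10, 51), (798, 882, 38, 4, 37), (800, 875, 40, 1, 42),
  (798, 882, 38, 5, 36), (800, 875, 32, 6, 28), (798, 882, 38, 6, 35), (810, 891, 45, 14, 33),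
  (819, 910, 63, 25, 40), (826, 931, 59, 23, 38)]

def certs15 : List (ℕ × ℕ × ℕ × ℕ × ℕ) := [
  (810, 891, 54, 13, 44), (816, 918, 68, 13, 60), (837, 961, 54, 34, 20), (817, 903, 43, 4, 42),
  (816, 912, 48, 13, 38), (820, 902, 41, 10, 33), (810, 900, 27, 6, 23), (837, 961, 54, 23, 33),
  (814, 888, 37, 9, 30), (816, 896, 34, 8, 28), (828, 912, 54, 18, 38), (819, 891, 42, 11, 33),
  (819, 931, 39, 5, 38), (816, 918, 34, 7, 30), (854, 980, 61, 36, 25), (828, 920, 46, 9, 40),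
  (840, 960, 105, 27, 85), (840, 930, 30, 1, 31), (816, 896, 34, 2, 35), (825, 900, 50, 9, 44),
  (840, 945, 56, 17, 42), (840, 924, 35, 4, 33), (836, 924, 44, 5, 42), (840, 960, 105, 20, 94),
  (840, 924, 40, 9, 33), (840, 924, 42, 11, 33), (858, 968, 78, 25, 56), (840, 928, 35, 8, 29),
  (837, 961, 27, 10, 19), (840, 936, 35, 11, 26), (836, 912, 38, 10, 30), (840, 924, 60, 9, 55),
  (858, 968, 39, 11, 30), (846, 940, 47, 10, 40), (858, 968, 39, 4, 38), (860, 960, 43, 20, 24),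
  (855, 950, 57, 23, 36), (864, 960, 54, 25, 30), (850, 935, 50, 9, 44), (855, 950, 57, 16, 44),
  (855, 945, 57, 5, 56), (855, 945, 30, 4, 28), (868, 961, 56, 26, 31), (864, 972, 48, 19, 31),
  (868, 961, 56, 18, 40), (860, 946, 43, 12, 33), (858, 968, 39, 1, 42), (868, 961, 56, 20, 38),
  (868, 961, 28, 1, 29), (868, 961, 42, 2, 43)]

def certs16 : List (ℕ × ℕ × ℕ × ℕ × ℕ) := [
  (858, 936, 33, 5, 30), (864, 945, 48, 15, 35), (861, 945, 41, 13, 30), (864, 954, 54, 5, 53),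
  (868, 961, 28, 3, 27), (868, 961, 42, 5, 40), (874, 966, 38, 18, 21), (868, 961, 28, 4, 26),
  (897, 1014, 69, 32, 38), (880, 968, 40, 7, 35), (870, 957, 58, 7, 55), (880, 968, 30, 1, 31),
  (868, 961, 56, 2, 59), (880, 968, 40, 19, 22), (864, 972, 96, 3, 104), (870, 954, 58, 9, 53),
  (885, 975, 59, 22, 39), (880, 968, 40, 11, 31), (882, 972, 49, 18, 33), (882, 966, 49, 6, 46),
  (880, 960, 44, 13, 33), (880, 968, 40, 13, 29), (900, 1000, 30, 1, 31), (880, 968, 40, 4, 39),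
  (880, 960, 40, 1, 42), (880, 960, 44, 5, 42), (910, 1014, 70, 32, 39), (880, 960, 55, 5, 54),
  (891, 972, 33, 3, 32), (882, 972, 49, 5, 48), (900, 990, 36, 5, 33), (900, 1000, 30, 13, 18),
  (910, 1014, 70, 19, 54), (900, 1000, 45, 16, 31), (900, 1000, 30, 14, 17), (891, 972, 27, 1, 28),
  (910, 1014, 70, 22, 51), (891, 972, 33, 7, 28), (912, 1024, 57, 16, 44), (910, 1000, 56, 18, 40),
  (900, 990, 60, 9, 55), (900, 1000, 45, 11, 37), (910, 1014, 70, 9, 66), (896, 980, 64, 4, 65),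
  (910, 1000, 65, 18, 50), (900, 972, 40, 9, 33), (902, 984, 41, 2, 42), (900, 1000, 45, 5, 44),
  (912, 1008, 32, 6, 28), (900, 1000, 30, 1, 32)]

def certs17 : List (ℕ × ℕ × ℕ × ℕ × ℕ) := [
  (920, 1024, 46, 16, 32), (910, 1000, 39, 2, 40), (910, 1000, 42, 5, 40), (936, 1053, 52, 33, 19),
  (928, 1024, 37, 15, 23), (912, 992, 38, 9, 31), (918, 1008, 27, 1, 28), (928, 1024, 29, 1, 30),
  (924, 1008, 33, 2, 33), (920, 1000, 46, 13, 35), (923, 1014, 71, 15, 60), (936, 1040, 78, 26, 55),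
  (928, 1024, 58, 15, 46), (920, 1000, 46, 4, 45), (928, 1024, 29, 13, 17), (924, 1008, 33, 5, 30),
  (923, 1014, 71, 10, 66), (936, 1026, 52, 16, 38), (924, 1008, 28, 2, 28), (928, 1024, 29, 5, 26),
  (925, 1000, 37, 7, 32), (943, 1058, 41, 22, 20), (924, 1008, 55, 6, 53), (935, 1020, 55, 10, 48),
  (943, 1058, 41, 15, 28), (940, 1034, 47, 16, 33), (936, 1014, 48, 14, 36), (936, 1014, 36, 5, 33),
  (936, 1040, 36, 4, 35), (936, 1014, 30, 1, 31), (950, 1045, 38, 17, 22), (936, 1014, 36, 7, 31),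
  (936, 1014, 32, 4, 30), (936, 1014, 45, 4, 44), (969, 1083, 51, 14, 39), (960, 1056, 32, 1, 33),
  (950, 1045, 50, 9, 44), (936, 1014, 54, 3, 55), (945, 1050, 63, 10, 58), (969, 1083, 51, 25, 27),
  (945, 1029, 27, 1, 28), (945, 1029, 30, 4, 28), (969, 1083, 51, 18, 35), (966, 1058, 33, 1, 34),
  (945, 1050, 63, 5, 64), (960, 1050, 48, 15, 35), (969, 1083, 51, 20, 33), (966, 1058, 35, 4, 33),
  (966, 1058, 42, 20, 23), (966, 1058, 42, 10, 34)]

def certs18 : List (ℕ × ℕ × ℕ × ℕ × ℕ) := [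
  (952, 1024, 34, 4, 32), (957, 1044, 29, 3, 28), (966, 1058, 42, 1, 44), (960, 1050, 32, 6, 28),
  (966, 1058, 42, 2, 43), (960, 1044, 32, 5, 29), (966, 1058, 28, 2, 28), (966, 1058, 30, 4, 28),
  (966, 1058, 42, 4, 41), (966, 1058, 28, 3, 27), (966, 1058, 42, 5, 40), (960, 1050, 48, 3, 49),
  (968, 1056, 44, 5, 42), (990, 1089, 45, 19, 27), (966, 1058, 24, 1, 25), (966, 1058, 28, 5, 25),
  (988, 1083, 52, 15, 39), (988, 1083, 42, 19, 24), (990, 1089, 40, 18, 23), (980, 1075, 49, 9, 43),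
  (990, 1080, 33, 1, 34), (990, 1080, 55, 17, 40), (979, 1089, 89, 7, 90), (990, 1080, 45, 11, 36),
  (990, 1080, 55, 19, 38), (990, 1080, 33, 3, 32), (1005, 1125, 67, 29, 40), (990, 1078, 55, 9, 49),
  (1008, 1120, 72, 29, 45), (988, 1083, 26, 1, 27), (990, 1080, 33, 5, 30), (988, 1083, 65, 4, 66),
  (1005, 1125, 67, 16, 55), (990, 1080, 55, 3, 56), (990, 1080, 30, 4, 28), (990, 1080, 33, 7, 28),
  (990, 1075, 44, 4, 43), (990, 1089, 45, 1, 48), (1005, 1125, 67, 3, 70), (1008, 1104, 42, 20, 23),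
  (990, 1089, 36, 4, 35), (990, 1089, 45, 3, 46), (1008, 1104, 48, 5, 46), (1001, 1078, 33, 1, 34),
  (1012, 1104, 33, 2, 33), (1001, 1078, 39, 7, 34), (1037, 1156, 61, 26, 36), (1023, 1122, 33, 1, 34),
  (1035, 1150, 69, 41, 28), (1008, 1088, 36, 4, 34)]

def certs19 : List (ℕ × ℕ × ℕ × ℕ × ℕ) := [
  (1025, 1125, 41, 7, 36), (1008, 1088, 42, 10, 34), (1020, 1125, 68, 3, 70), (1040, 1152, 65, 38, 27),
  (1026, 1134, 38, 18, 21), (1020, 1110, 51, 16, 37), (1014, 1092, 39, 6, 35), (1022, 1127, 73, 9, 69),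
  (1020, 1116, 40, 11, 31), (1020, 1125, 68, 8, 65), (1020, 1120, 34, 8, 28), (1032, 1152, 43, 24, 20),
  (1026, 1134, 36, 10, 28), (1020, 1100, 34, 3, 33), (1032, 1152, 43, 8, 38), (1020, 1104, 51, 8, 46),
  (1035, 1150, 69, 17, 56), (1035, 1125, 36, 3, 35), (1032, 1152, 43, 1, 46), (1032, 1120, 43, 10, 35),
  (1050, 1155, 60, 28, 33), (1032, 1152, 86, 13, 80), (1035, 1125, 46, 13, 35), (1032, 1152, 43, 3, 44),
  (1032, 1152, 43, 12, 34), (1050, 1150, 70, 26, 46), (1050, 1176, 75, 14, 66), (1054, 1156, 62, 20, 44),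
  (1034, 1128, 47, 8, 42), (1040, 1140, 65, 12, 57), (1050, 1148, 63, 24, 41), (1045, 1140, 55, 10, 48),
  (1040, 1120, 40, 7, 35), (1044, 1134, 58, 12, 49), (1050, 1140, 50, 14, 38), (1040, 1120, 52, 6, 49),
  (1050, 1176, 75, 4, 78), (1056, 1152, 44, 21, 24), (1054, 1156, 62, 17, 48), (1056, 1152, 40, 19, 22),
  (1050, 1150, 70, 6, 69), (1044, 1134, 29, 3, 28), (1054, 1156, 31, 15, 17), (1056, 1152, 44, 13, 33),
  (1050, 1176, 75, 1, 82), (1056, 1152, 33, 5, 30), (1054, 1156, 31, 6, 27), (1050, 1125, 35, 3, 34),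
  (1064, 1152, 38, 4, 36)]

theorem small_ok (δ : ℕ) (h1 : 45 ≤ δ) (h2 : δ < 1044) : ∃ x, ok δ x = true := by
  rcases Nat.lt_or_ge δ 95 with h | h
  · have := chk_spec certs0 45 (by decide +kernel) (δ - 45) (by
      have : certs0.length = 50 := by decide +kernel
      omega)
    rwa [show 45 + (δ - 45) = δ by omega] at this
  rcases Nat.lt_or_ge δ 145 with h | h
  · have := chk_spec certs1 95 (by decide +kernel) (δ - 95) (by
      have : certs1.length = 50 := by decide +kernel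
      omega)
    rwa [show 95 + (δ - 95) = δ by omega] at this
  rcases Nat.lt_or_ge δ 195 with h | h
  · have := chk_spec certs2 145 (by decide +kernel) (δ - 145) (by
      have : certs2.length = 50 := by decide +kernel
      omega)
    rwa [show 145 + (δ - 145) = δ by omega] at this
  rcases Nat.lt_or_ge δ 245 with h | h
  · have := chk_spec certs3 195 (by decide +kernel) (δ - 195) (by
      have : certs3.length = 50 := by decide +kernel
      omega)
    rwa [show 195 + (δ - 195) = δ by omega] at this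
  rcases Nat.lt_or_ge δ 295 with h | h
  · have := chk_spec certs4 245 (by decide +kernel) (δ - 245) (by
      have : certs4.length = 50 := by decide +kernel
      omega)
    rwa [show 245 + (δ - 245) = δ by omega] at this
  rcases Nat.lt_or_ge δ 345 with h | h
  · have := chk_spec certs5 295 (by decide +kernel) (δ - 295) (by
      have : certs5.length = 50 := by decide +kernel
      omega)
    rwa [show 295 + (δ - 295) = δ by omega] at this
  rcases Nat.lt_or_ge δ 395 with h | h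
  · have := chk_spec certs6 345 (by decide +kernel) (δ - 345) (by
      have : certs6.length = 50 := by decide +kernel
      omega)
    rwa [show 345 + (δ - 345) = δ by omega] at this
  rcases Nat.lt_or_ge δ 445 with h | h
  · have := chk_spec certs7 395 (by decide +kernel) (δ - 395) (by
      have : certs7.length = 50 := by decide +kernel
      omega)
    rwa [show 395 + (δ - 395) = δ by omega] at this
  rcases Nat.lt_or_ge δ 495 with h | h
  · have := chk_spec certs8 445 (by decide +kernel) (δ - 445) (by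
      have : certs8.length = 50 := by decide +kernel
      omega)
    rwa [show 445 + (δ - 445) = δ by omega] at this
  rcases Nat.lt_or_ge δ 545 with h | h
  · have := chk_spec certs9 495 (by decide +kernel) (δ - 495) (by
      have : certs9.length = 50 := by decide +kernel
      omega)
    rwa [show 495 + (δ - 495) = δ by omega] at this
  rcases Nat.lt_or_ge δ 595 with h | h
  · have := chk_spec certs10 545 (by decide +kernel) (δ - 545) (by
      have : certs10.length = 50 := by decide +kernel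
      omega)
    rwa [show 545 + (δ - 545) = δ by omega] at this
  rcases Nat.lt_or_ge δ 645 with h | h
  · have := chk_spec certs11 595 (by decide +kernel) (δ - 595) (by
      have : certs11.length = 50 := by decide +kernel
      omega)
    rwa [show 595 + (δ - 595) = δ by omega] at this
  rcases Nat.lt_or_ge δ 695 with h | h
  · have := chk_spec certs12 645 (by decide +kernel) (δ - 645) (by
      have : certs12.length = 50 := by decide +kernel
      omega)
    rwa [show 645 + (δ - 645) = δ by omega] at this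
  rcases Nat.lt_or_ge δ 745 with h | h
  · have := chk_spec certs13 695 (by decide +kernel) (δ - 695) (by
      have : certs13.length = 50 := by decide +kernel
      omega)
    rwa [show 695 + (δ - 695) = δ by omega] at this
  rcases Nat.lt_or_ge δ 795 with h | h
  · have := chk_spec certs14 745 (by decide +kernel) (δ - 745) (by
      have : certs14.length = 50 := by decide +kernel
      omega)
    rwa [show 745 + (δ - 745) = δ by omega] at this
  rcases Nat.lt_or_ge δ 845 with h | h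
  · have := chk_spec certs15 795 (by decide +kernel) (δ - 795) (by
      have : certs15.length = 50 := by decide +kernel
      omega)
    rwa [show 795 + (δ - 795) = δ by omega] at this
  rcases Nat.lt_or_ge δ 895 with h | h
  · have := chk_spec certs16 845 (by decide +kernel) (δ - 845) (by
      have : certs16.length = 50 := by decide +kernel
      omega)
    rwa [show 845 + (δ - 845) = δ by omega] at this
  rcases Nat.lt_or_ge δ 945 with h | h
  · have := chk_spec certs17 895 (by decide +kernel) (δ - 895) (by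
      have : certs17.length = 50 := by decide +kernel
      omega)
    rwa [show 895 + (δ - 895) = δ by omega] at this
  rcases Nat.lt_or_ge δ 995 with h | h
  · have := chk_spec certs18 945 (by decide +kernel) (δ - 945) (by
      have : certs18.length = 50 := by decide +kernel
      omega)
    rwa [show 945 + (δ - 945) = δ by omega] at this
  rcases Nat.lt_or_ge δ 1044 with h | h
  · have := chk_spec certs19 995 (by decide +kernel) (δ - 995) (by
      have : certs19.length = 49 := by decide +kernel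
      omega)
    rwa [show 995 + (δ - 995) = δ by omega] at this
  omega

/-- the two moves give all `n ≥ δ + 20 √δ` -/
theorem PA_sqrt (hA : MoveAT) (hB : MoveBT) {δ n : ℕ} (hδ : 1 ≤ δ)
    (hn : (δ : ℝ) + 20 * √δ ≤ n) : PA n 0 δ := by
  have hδ0 : (0 : ℝ) < δ := by exact_mod_cast hδ
  have hs : √(δ : ℝ) * √(δ : ℝ) = δ := Real.mul_self_sqrt hδ0.le
  have hs0 : 0 < √(δ : ℝ) := Real.sqrt_pos.2 hδ0
  rcases Nat.lt_or_ge δ 45 with h | h
  · -- `4 δ ≤ n`
    have h4 : (4 * δ : ℝ) ≤ n := by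
      have h1 : 3 * √(δ : ℝ) ≤ 20 := by
        by_contra hcon
        push Not at hcon
        have h2 : 20 * 20 < (3 * √(δ : ℝ)) * (3 * √(δ : ℝ)) := by nlinarith
        have h3 : (3 * √(δ : ℝ)) * (3 * √(δ : ℝ)) = 9 * δ := by
          calc _ = 9 * (√(δ : ℝ) * √(δ : ℝ)) := by ring
            _ = _ := by rw [hs]
        have h4 : (δ : ℝ) ≤ 44 := by exact_mod_cast (by omega : δ ≤ 44)
        rw [h3] at h2
        linarith
      nlinarith
    have h4' : 4 * δ ≤ n := by exact_mod_cast h4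
    rcases Nat.lt_or_ge δ 2 with h2 | h2
    · have h3 : δ = 1 := by omega
      subst h3
      have h5 : 9 ≤ n := by
        have : (9 : ℝ) ≤ n := by
          rw [Nat.cast_one, Real.sqrt_one] at hn
          linarith
        exact_mod_cast this
      rw [Nat.cast_one]
      exact Pool.Agent.TH552.NB.PA_one h5
    · exact Pool.Agent.TH266.NS.PA_all h2 h4'
  rcases Nat.lt_or_ge δ 1044 with h2 | h2
  · obtain ⟨⟨M, m, j, j1, c⟩, hx⟩ := small_ok δ h h2
    simp only [ok, Bool.and_eq_true, Nat.ble_eq, Nat.beq_eq, Nat.blt_eq] at hx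
    obtain ⟨c1, c2, c3, c4, c5, c6, c7⟩ := hx
    refine two_step hA hB hδ c1 c2 c3 c4 c5 c6 ?_
    have hM0 : (0 : ℝ) < M := by exact_mod_cast (by omega : 0 < M)
    have c7R : (δ : ℝ) * ((m : ℝ) ^ 2) ^ 2 + δ * ((M : ℝ) ^ 2) ^ 2 ≤
        400 * ((M : ℝ) ^ 2) ^ 2 + 2 * (δ * ((m : ℝ) ^ 2 * (M : ℝ) ^ 2)) := by exact_mod_cast c7
    -- `δ (m² - M²)² ≤ 400 M⁴`
    have h5 : √(δ : ℝ) * (m ^ 2 - M ^ 2) ≤ 20 * M ^ 2 := by
      by_contra hcon
      push Not at hcon
      have h6 : (0 : ℝ) ≤ 20 * M ^ 2 := by positivity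
      have h7 : (20 * (M : ℝ) ^ 2) * (20 * M ^ 2) <
          (√(δ : ℝ) * (m ^ 2 - M ^ 2)) * (√(δ : ℝ) * (m ^ 2 - M ^ 2)) := by
        apply mul_lt_mul'' hcon hcon h6 h6
      have h8 : (√(δ : ℝ) * (m ^ 2 - M ^ 2)) * (√(δ : ℝ) * (m ^ 2 - M ^ 2)) =
          δ * (m ^ 2 - M ^ 2) ^ 2 := by
        calc _ = (√(δ : ℝ) * √(δ : ℝ)) * ((m : ℝ) ^ 2 - M ^ 2) ^ 2 := by ring
          _ = _ := by rw [hs]
      rw [h8] at h7
      nlinarith
    have h9 : (δ : ℝ) * m ^ 2 ≤ n * M ^ 2 := by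
      have h10 : ((δ : ℝ) + 20 * √δ) * M ^ 2 ≤ n * M ^ 2 := by gcongr
      have h11 : √(δ : ℝ) * (√(δ : ℝ) * (m ^ 2 - M ^ 2)) ≤ √(δ : ℝ) * (20 * M ^ 2) := by gcongr
      have h12 : √(δ : ℝ) * (√(δ : ℝ) * ((m : ℝ) ^ 2 - M ^ 2)) = δ * (m ^ 2 - M ^ 2) := by
        rw [← mul_assoc, hs]
      rw [h12] at h11
      nlinarith
    exact_mod_cast h9
  · exact large hA hB h2 hn

end Pool.Agent.J6H8.VT
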