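import Pool.Agent.J6H57.VT.Stm
import Pool.Agent.TH552.NB.PlaneR

/-!
# The vertex move: two moves with integral parameters

The first move leads from the slopes `0, δ` to slopes with the sum `M ² / δ`, the second one to the
slopes `μ', δ (m / M) ² - μ'`, where `μ' ∈ (0, 1]` is arbitrary.
-/

set_option autoImplicit false

namespace Pool.Agent.J6H8.VT

open Pool.Agent.TH880.NB Pool.Agent.J6H57.VT

theorem two_step (hA : MoveAT) (hB : MoveBT) {δ M m j j1 c n : ℕ} (hδ : 1 ≤ δ) (hj1 : 1 ≤ j1)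
    (hM : j1 + δ < M) (hm : 1 ≤ m) (hc : 1 ≤ c) (hI : j * δ * m = j1 * M * m + c * M ^ 2)
    (hs : δ * m ^ 2 + c * (M ^ 2 * m + c * M ^ 2) < c * (δ * m ^ 2))
    (hn : δ * m ^ 2 ≤ n * M ^ 2) : PA n 0 δ := by
  have hδ0 : (0 : ℝ) < δ := by exact_mod_cast hδ
  have hj10 : (0 : ℝ) < j1 := by exact_mod_cast hj1
  have hMR : (j1 : ℝ) + δ < M := by exact_mod_cast hM
  have hM0 : (0 : ℝ) < M := by linarith
  have hm0 : (0 : ℝ) < m := by exact_mod_cast hm
  have hc0 : (0 : ℝ) < c := by exact_mod_cast hc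
  have hIR : (j : ℝ) * δ * m = j1 * M * m + c * M ^ 2 := by exact_mod_cast hI
  have hsR : (δ : ℝ) * m ^ 2 + c * (M ^ 2 * m + c * M ^ 2) < c * (δ * m ^ 2) := by
    exact_mod_cast hs
  have hnR : (δ : ℝ) * m ^ 2 ≤ n * M ^ 2 := by exact_mod_cast hn
  have hn1 : 1 ≤ n := by
    rcases Nat.eq_zero_or_pos n with h | h
    · rw [h, zero_mul] at hn
      have : 0 < δ * m ^ 2 := by positivity
      omega
    · exact h
  have hcl := PA.closed (n := n) hn1
  -- the first move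
  refine hB n j1 M 0 δ le_rfl hδ0.le (by linarith) hj10 hMR ?_
  rw [zero_add, sub_zero, sub_zero]
  refine hcl.shear (j1 : ℤ) ?_
  obtain ⟨μ, hμ⟩ : ∃ μ : ℝ, μ = j1 * M / δ := ⟨_, rfl⟩
  obtain ⟨S, hS⟩ : ∃ S : ℝ, S = M ^ 2 / δ := ⟨_, rfl⟩
  have e1 : (j1 : ℝ) * (M - δ) / δ + ((j1 : ℤ) : ℝ) = μ := by
    rw [hμ]; push_cast; field_simp; ring
  have e2 : (M : ℝ) ^ 2 / (δ : ℝ) - (j1 : ℝ) * (M - δ) / δ - ((j1 : ℤ) : ℝ) = S - μ := by
    rw [← e1, hS]; ring
  rw [e1, e2]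
  -- the second move
  have hμ0 : 0 ≤ μ := by rw [hμ]; positivity
  have hS0 : 0 < S := by rw [hS]; positivity
  have hν0 : 0 ≤ S - μ := by
    have e : S - μ = M * (M - j1) / δ := by rw [hS, hμ]; ring
    rw [e]
    have : (0 : ℝ) ≤ M - j1 := by linarith
    positivity
  obtain ⟨p, hp⟩ : ∃ p : ℝ, p = j - μ := ⟨_, rfl⟩
  have hpe : p = c * M ^ 2 / (δ * m) := by
    rw [hp, hμ, eq_div_iff (by positivity)]
    have : ((j : ℝ) - j1 * M / δ) * (δ * m) = j * δ * m - j1 * M * m := by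
      field_simp
    rw [this, hIR]; ring
  have hp0 : 0 < p := by rw [hpe]; positivity
  have hpm : p * m / S = c := by
    rw [hpe, hS]
    field_simp
  -- the main estimate
  have hkey : 1 < p * (m - S - p) / S := by
    have e3 : p * (m - S - p) / S = c - p - p ^ 2 / S := by
      have : p * ((m : ℝ) - S - p) / S = p * m / S - p - p ^ 2 / S := by
        field_simp
      rw [this, hpm]
    have e4 : p ^ 2 / S = c ^ 2 * M ^ 2 / (δ * m ^ 2) := by
      rw [hpe, hS]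
      field_simp
    rw [e3, e4, hpe]
    have e5 : (c : ℝ) - c * M ^ 2 / (δ * m) - c ^ 2 * M ^ 2 / (δ * m ^ 2) =
        (c * (δ * m ^ 2) - c * (M ^ 2 * m + c * M ^ 2)) / (δ * m ^ 2) := by
      field_simp
      ring
    rw [e5, lt_div_iff₀ (by positivity)]
    linarith
  -- the free slope
  obtain ⟨R, hR⟩ : ∃ R : ℝ, R = (m : ℝ) ^ 2 / S := ⟨_, rfl⟩
  have hR' : R = δ * m ^ 2 / M ^ 2 := by
    rw [hR, hS]
    field_simp
  have hR0 : 0 < R := by rw [hR']; positivity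
  have hRn : R ≤ n := by
    rw [hR', div_le_iff₀ (by positivity)]
    exact hnR
  obtain ⟨μ', hμ'⟩ : ∃ μ' : ℝ, μ' = √R * √(n : ℝ) + ((1 - ⌈√R * √(n : ℝ)⌉ : ℤ) : ℝ) := ⟨_, rfl⟩
  have hμ'1 : 0 < μ' := by
    rw [hμ']
    push_cast
    linarith [Int.ceil_lt_add_one (√R * √(n : ℝ))]
  have hμ'2 : μ' ≤ 1 := by
    rw [hμ']
    push_cast
    linarith [Int.le_ceil (√R * √(n : ℝ))]
  have hend := Pool.Agent.TH552.NB.PA_end (n := n) (δ := R) hRn hR0 _ hμ'
  have eS : μ + (S - μ) = S := by ring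
  refine hA n j m ((c : ℤ) - j) μ (S - μ) μ' hμ0 hν0 (by linarith) ?_ ?_ ?_ hμ'1 ?_ ?_
  · linarith
  · -- `q > 0`
    have h1 : 0 < p * (m - S - p) / S := lt_trans one_pos hkey
    have h2 : 0 < p * (m - S - p) := by
      by_contra hcon
      push Not at hcon
      have := div_nonpos_of_nonpos_of_nonneg hcon hS0.le
      linarith
    have h3 : 0 < (m : ℝ) - S - p := by
      by_contra hcon
      push Not at hcon
      have := mul_nonpos_of_nonneg_of_nonpos hp0.le hcon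
      linarith
    linarith
  · rw [eS, ← hp]
    have e2 : p * ((m : ℝ) - S) / S = p * m / S - p := by
      field_simp
    rw [e2, hpm, hp]
    push_cast
    ring
  · rw [eS, ← hp]
    have e2 : (m : ℝ) - j - (S - μ) = m - S - p := by
      rw [hp]; ring
    rw [e2]
    linarith
  · rw [eS, ← hR]
    exact hend

end Pool.Agent.J6H8.VT
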